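import Mathlib

/-!
# There is no countable universal projective algebra of plane sets

A projective algebra is a nonempty family of subsets of the plane `ℝ × ℝ` which is closed under the
Boolean operations, the two projections to the axes, and direct products of subsets of the two axes.
We show that a projective algebra in which all projective algebras generated by one plane set embed
has at least continuum many members. In particular there is no countable projective algebra in which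
all countable projective algebras embed.

Proof. For a set `S` of natural numbers let `G_S` consist of the points `(i, j)` with integers
`1 ≤ i ≤ j` and the points `(n + 1, 0)` with `n ∈ S`. The half-lines `{(i, 0) : i ≥ n + 1}` and
`{(0, j) : j ≥ n + 1}` can be expressed by the operations from `G_S`, by formulas which do not depend
on `S`, so there is a term `t n` which has the value `{(n + 1, 0)}` at `G_S` if `n ∈ S`, and the value
`∅` otherwise. So if the algebras generated by `G_S` and `G_T` are embedded in the same algebra `U`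
and the images of `G_S` and `G_T` agree, then `S = T`.
-/

set_option autoImplicit false

namespace Pool.Agent.Results.MP_3db952_lc.NoCountableUniversal

open Set Cardinal

/-- The first axis `X` of the plane. -/
def axisX : Set (ℝ × ℝ) := {p | p.2 = 0}

/-- The second axis `Y` of the plane. -/
def axisY : Set (ℝ × ℝ) := {p | p.1 = 0}

/-- `π₁(S)`, the projection of `S` to the first axis. -/
def proj1 (S : Set (ℝ × ℝ)) : Set (ℝ × ℝ) := {p | p.2 = 0 ∧ ∃ y, (p.1, y) ∈ S}

/-- `π₂(S)`, the projection of `S` to the second axis. -/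
def proj2 (S : Set (ℝ × ℝ)) : Set (ℝ × ℝ) := {p | p.1 = 0 ∧ ∃ x, (x, p.2) ∈ S}

/-- `A ⊗ B`, the direct product of `A ⊆ X` and `B ⊆ Y`. -/
def dprod (A B : Set (ℝ × ℝ)) : Set (ℝ × ℝ) := {p | (p.1, 0) ∈ A ∧ (0, p.2) ∈ B}

/-- A projective algebra: a nonempty family of subsets of the plane which is closed under unions,
intersections, complements, the two projections and direct products. -/
structure IsProjectiveAlgebra (F : Set (Set (ℝ × ℝ))) : Prop where
  nonempty : F.Nonempty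
  union : ∀ A ∈ F, ∀ B ∈ F, A ∪ B ∈ F
  inter : ∀ A ∈ F, ∀ B ∈ F, A ∩ B ∈ F
  compl : ∀ A ∈ F, Aᶜ ∈ F
  proj1 : ∀ A ∈ F, proj1 A ∈ F
  proj2 : ∀ A ∈ F, proj2 A ∈ F
  dprod : ∀ A ∈ F, ∀ B ∈ F, A ⊆ axisX → B ⊆ axisY → dprod A B ∈ F

/-- The bijection `e` from the family `F` onto the family `V` preserves the Boolean operations, the
projections, and the direct products of members contained in the axes. -/
structure Preserves {F V : Set (Set (ℝ × ℝ))} (e : F ≃ V) : Prop where
  union : ∀ A B C : F, C.1 = A.1 ∪ B.1 → (e C).1 = (e A).1 ∪ (e B).1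
  inter : ∀ A B C : F, C.1 = A.1 ∩ B.1 → (e C).1 = (e A).1 ∩ (e B).1
  compl : ∀ A C : F, C.1 = A.1ᶜ → (e C).1 = (e A).1ᶜ
  proj1 : ∀ A C : F, C.1 = proj1 A.1 → (e C).1 = proj1 (e A).1
  proj2 : ∀ A C : F, C.1 = proj2 A.1 → (e C).1 = proj2 (e A).1
  dprod : ∀ A B C : F, A.1 ⊆ axisX → B.1 ⊆ axisY → C.1 = dprod A.1 B.1 →
    (e C).1 = dprod (e A).1 (e B).1

/-- `F` embeds in `U`: it is isomorphic to a subalgebra `V` of `U`. -/
def Embeds (F U : Set (Set (ℝ × ℝ))) : Prop :=
  ∃ V : Set (Set (ℝ × ℝ)), V ⊆ U ∧ IsProjectiveAlgebra V ∧ ∃ e : F ≃ V, Preserves e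

/-- The projective algebra generated by the plane set `G`. -/
def generated (G : Set (ℝ × ℝ)) : Set (Set (ℝ × ℝ)) :=
  {A | ∀ F : Set (Set (ℝ × ℝ)), IsProjectiveAlgebra F → G ∈ F → A ∈ F}

/-! ### The generated algebra -/

theorem mem_generated (G : Set (ℝ × ℝ)) : G ∈ generated G := fun _ _ h => h

theorem isProjectiveAlgebra_generated (G : Set (ℝ × ℝ)) : IsProjectiveAlgebra (generated G) where
  nonempty := ⟨G, mem_generated G⟩
  union := fun A hA B hB F hF h => hF.union A (hA F hF h) B (hB F hF h)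
  inter := fun A hA B hB F hF h => hF.inter A (hA F hF h) B (hB F hF h)
  compl := fun A hA F hF h => hF.compl A (hA F hF h)
  proj1 := fun A hA F hF h => hF.proj1 A (hA F hF h)
  proj2 := fun A hA F hF h => hF.proj2 A (hA F hF h)
  dprod := fun A hA B hB hA' hB' F hF h => hF.dprod A (hA F hF h) B (hB F hF h) hA' hB'

/-- The stages of the construction of a countable algebra which contains `G`. -/
def stage (G : Set (ℝ × ℝ)) : ℕ → Set (Set (ℝ × ℝ))
  | 0 => {G}
  | n + 1 => stage G n ∪ image2 (· ∪ ·) (stage G n) (stage G n) ∪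
      image2 (· ∩ ·) (stage G n) (stage G n) ∪ compl '' (stage G n) ∪ proj1 '' (stage G n) ∪
      proj2 '' (stage G n) ∪ image2 dprod (stage G n) (stage G n)

theorem stage_countable (G : Set (ℝ × ℝ)) (n : ℕ) : (stage G n).Countable := by
  induction n with
  | zero => exact countable_singleton G
  | succ n ih =>
    exact (((((ih.union (ih.image2 ih _)).union (ih.image2 ih _)).union (ih.image _)).union
      (ih.image _)).union (ih.image _)).union (ih.image2 ih _)

theorem stage_mono (G : Set (ℝ × ℝ)) {m n : ℕ} (h : m ≤ n) : stage G m ⊆ stage G n := by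
  induction h with
  | refl => exact Subset.rfl
  | step _ ih =>
    refine ih.trans ?_
    intro A hA
    exact Or.inl (Or.inl (Or.inl (Or.inl (Or.inl (Or.inl hA)))))

theorem generated_countable (G : Set (ℝ × ℝ)) : (generated G).Countable := by
  have key : IsProjectiveAlgebra (⋃ n, stage G n) := by
    have two : ∀ A ∈ ⋃ n, stage G n, ∀ B ∈ ⋃ n, stage G n, ∃ n, A ∈ stage G n ∧ B ∈ stage G n := by
      intro A hA B hB
      obtain ⟨m, hm⟩ := mem_iUnion.1 hA
      obtain ⟨n, hn⟩ := mem_iUnion.1 hB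
      exact ⟨max m n, stage_mono G (le_max_left _ _) hm, stage_mono G (le_max_right _ _) hn⟩
    refine ⟨⟨G, mem_iUnion.2 ⟨0, rfl⟩⟩, ?_, ?_, ?_, ?_, ?_, ?_⟩
    · intro A hA B hB
      obtain ⟨n, h1, h2⟩ := two A hA B hB
      exact mem_iUnion.2 ⟨n + 1, Or.inl (Or.inl (Or.inl (Or.inl (Or.inl
        (Or.inr ⟨A, h1, B, h2, rfl⟩)))))⟩
    · intro A hA B hB
      obtain ⟨n, h1, h2⟩ := two A hA B hB
      exact mem_iUnion.2 ⟨n + 1, Or.inl (Or.inl (Or.inl (Or.inl (Or.inr ⟨A, h1, B, h2, rfl⟩))))⟩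
    · intro A hA
      obtain ⟨n, h1⟩ := mem_iUnion.1 hA
      exact mem_iUnion.2 ⟨n + 1, Or.inl (Or.inl (Or.inl (Or.inr ⟨A, h1, rfl⟩)))⟩
    · intro A hA
      obtain ⟨n, h1⟩ := mem_iUnion.1 hA
      exact mem_iUnion.2 ⟨n + 1, Or.inl (Or.inl (Or.inr ⟨A, h1, rfl⟩))⟩
    · intro A hA
      obtain ⟨n, h1⟩ := mem_iUnion.1 hA
      exact mem_iUnion.2 ⟨n + 1, Or.inl (Or.inr ⟨A, h1, rfl⟩)⟩
    · intro A hA B hB _ _
      obtain ⟨n, h1, h2⟩ := two A hA B hB
      exact mem_iUnion.2 ⟨n + 1, Or.inr ⟨A, h1, B, h2, rfl⟩⟩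
  refine (countable_iUnion (stage_countable G)).mono fun A hA => ?_
  exact hA _ key (mem_iUnion.2 ⟨0, rfl⟩)

/-! ### The terms -/

/-- The part of `G` outside of the axes. -/
def core (G : Set (ℝ × ℝ)) : Set (ℝ × ℝ) := G ∩ (proj1 (G ∪ Gᶜ) ∪ proj2 (G ∪ Gᶜ))ᶜ

/-- The terms for the half-lines in the two axes. -/
def half (G : Set (ℝ × ℝ)) : ℕ → Set (ℝ × ℝ) × Set (ℝ × ℝ)
  | 0 => (proj1 (core G), proj2 (core G))
  | n + 1 =>
    let A := proj1 (dprod (half G n).1 (half G n).2 ∩ (core G)ᶜ)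
    (A, proj2 (core G ∩ dprod A (half G n).2))

/-- The term which tests whether `n ∈ S`. -/
def test (G : Set (ℝ × ℝ)) (n : ℕ) : Set (ℝ × ℝ) := (half G n).1 ∩ (half G (n + 1)).1ᶜ ∩ G

theorem proj1_sub (A : Set (ℝ × ℝ)) : proj1 A ⊆ axisX := fun _ h => h.1

theorem proj2_sub (A : Set (ℝ × ℝ)) : proj2 A ⊆ axisY := fun _ h => h.1

theorem half1_sub (G : Set (ℝ × ℝ)) (n : ℕ) : (half G n).1 ⊆ axisX := by
  cases n <;> exact proj1_sub _

theorem half2_sub (G : Set (ℝ × ℝ)) (n : ℕ) : (half G n).2 ⊆ axisY := by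
  cases n <;> exact proj2_sub _

section hom

variable {F V : Set (Set (ℝ × ℝ))} (hF : IsProjectiveAlgebra F)
  (e : F ≃ V) (he : Preserves e)

/-- The map `e` sends `A` to `B`. -/
def Sends (A B : Set (ℝ × ℝ)) : Prop := ∃ h : A ∈ F, (e ⟨A, h⟩ : Set (ℝ × ℝ)) = B

include hF he

theorem sends_union {A B A' B' : Set (ℝ × ℝ)} (h1 : Sends e A A') (h2 : Sends e B B') :
    Sends e (A ∪ B) (A' ∪ B') := by
  obtain ⟨a, rfl⟩ := h1
  obtain ⟨b, rfl⟩ := h2
  exact ⟨hF.union A a B b, he.union ⟨A, a⟩ ⟨B, b⟩ _ rfl⟩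

theorem sends_inter {A B A' B' : Set (ℝ × ℝ)} (h1 : Sends e A A') (h2 : Sends e B B') :
    Sends e (A ∩ B) (A' ∩ B') := by
  obtain ⟨a, rfl⟩ := h1
  obtain ⟨b, rfl⟩ := h2
  exact ⟨hF.inter A a B b, he.inter ⟨A, a⟩ ⟨B, b⟩ _ rfl⟩

theorem sends_compl {A A' : Set (ℝ × ℝ)} (h1 : Sends e A A') : Sends e Aᶜ A'ᶜ := by
  obtain ⟨a, rfl⟩ := h1
  exact ⟨hF.compl A a, he.compl ⟨A, a⟩ _ rfl⟩

theorem sends_proj1 {A A' : Set (ℝ × ℝ)} (h1 : Sends e A A') :
    Sends e (proj1 A) (proj1 A') := by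
  obtain ⟨a, rfl⟩ := h1
  exact ⟨hF.proj1 A a, he.proj1 ⟨A, a⟩ _ rfl⟩

theorem sends_proj2 {A A' : Set (ℝ × ℝ)} (h1 : Sends e A A') :
    Sends e (proj2 A) (proj2 A') := by
  obtain ⟨a, rfl⟩ := h1
  exact ⟨hF.proj2 A a, he.proj2 ⟨A, a⟩ _ rfl⟩

theorem sends_dprod {A B A' B' : Set (ℝ × ℝ)} (h1 : Sends e A A') (h2 : Sends e B B')
    (hA : A ⊆ axisX) (hB : B ⊆ axisY) : Sends e (dprod A B) (dprod A' B') := by
  obtain ⟨a, rfl⟩ := h1
  obtain ⟨b, rfl⟩ := h2
  exact ⟨hF.dprod A a B b hA hB, he.dprod ⟨A, a⟩ ⟨B, b⟩ _ hA hB rfl⟩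

theorem sends_core {G G' : Set (ℝ × ℝ)} (h : Sends e G G') : Sends e (core G) (core G') := by
  have h1 := sends_union hF e he h (sends_compl hF e he h)
  exact sends_inter hF e he h (sends_compl hF e he
    (sends_union hF e he (sends_proj1 hF e he h1) (sends_proj2 hF e he h1)))

theorem sends_half {G G' : Set (ℝ × ℝ)} (h : Sends e G G') (n : ℕ) :
    Sends e (half G n).1 (half G' n).1 ∧ Sends e (half G n).2 (half G' n).2 := by
  have hc := sends_core hF e he h
  induction n with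
  | zero => exact ⟨sends_proj1 hF e he hc, sends_proj2 hF e he hc⟩
  | succ n ih =>
    have h1 := sends_proj1 hF e he (sends_inter hF e he
      (sends_dprod hF e he ih.1 ih.2 (half1_sub G n) (half2_sub G n)) (sends_compl hF e he hc))
    refine ⟨h1, ?_⟩
    exact sends_proj2 hF e he (sends_inter hF e he hc
      (sends_dprod hF e he h1 ih.2 (half1_sub G (n + 1)) (half2_sub G n)))

theorem sends_test {G G' : Set (ℝ × ℝ)} (h : Sends e G G') (n : ℕ) :
    Sends e (test G n) (test G' n) :=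
  sends_inter hF e he (sends_inter hF e he (sends_half hF e he h n).1
    (sends_compl hF e he (sends_half hF e he h (n + 1)).1)) h

theorem sends_empty_iff {A A' : Set (ℝ × ℝ)} (h : Sends e A A') : A = ∅ ↔ A' = ∅ := by
  have h0 : Sends e ∅ ∅ := by
    have h1 := sends_inter hF e he h (sends_compl hF e he h)
    rwa [inter_compl_self, inter_compl_self] at h1
  obtain ⟨a, rfl⟩ := h
  obtain ⟨b, hb⟩ := h0
  constructor
  · rintro rfl
    exact hb
  · intro h2
    have h3 : e ⟨A, a⟩ = e ⟨∅, b⟩ := Subtype.ext (h2.trans hb.symm)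
    exact congrArg Subtype.val (e.injective h3)

end hom

/-! ### The sets `G_S` -/

/-- The set `G_S`. -/
def GS (S : Set ℕ) : Set (ℝ × ℝ) :=
  {p | (∃ i j : ℕ, 1 ≤ i ∧ i ≤ j ∧ p = ((i : ℝ), (j : ℝ))) ∨ ∃ n ∈ S, p = ((n : ℝ) + 1, 0)}

/-- The half-line in the first axis. -/
def lineX (n : ℕ) : Set (ℝ × ℝ) := {p | ∃ i : ℕ, n + 1 ≤ i ∧ p = ((i : ℝ), 0)}

/-- The half-line in the second axis. -/
def lineY (n : ℕ) : Set (ℝ × ℝ) := {p | ∃ j : ℕ, n + 1 ≤ j ∧ p = (0, (j : ℝ))}

/-- The half graph. -/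
def HG : Set (ℝ × ℝ) := {p | ∃ i j : ℕ, 1 ≤ i ∧ i ≤ j ∧ p = ((i : ℝ), (j : ℝ))}

theorem core_GS (S : Set ℕ) : core (GS S) = HG := by
  have h1 : GS S ∪ (GS S)ᶜ = Set.univ := union_compl_self _
  unfold core
  rw [h1]
  ext ⟨x, y⟩
  simp only [GS, HG, proj1, proj2, mem_inter_iff, mem_ofPred_eq, mem_compl_iff, mem_union,
    mem_univ, exists_const, and_true, not_or, Prod.mk.injEq]
  constructor
  · rintro ⟨h | ⟨n, _, _, h⟩, h2, h3⟩
    · exact h
    · exact absurd h h2
  · rintro ⟨i, j, hi, hij, rfl, rfl⟩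
    refine ⟨Or.inl ⟨i, j, hi, hij, rfl, rfl⟩, ?_, ?_⟩
    · exact Nat.cast_ne_zero.2 (by omega)
    · exact Nat.cast_ne_zero.2 (by omega)

theorem half_GS (S : Set ℕ) (n : ℕ) : half (GS S) n = (lineX n, lineY n) := by
  induction n with
  | zero =>
    simp only [half, core_GS]
    refine Prod.ext ?_ ?_
    · ext ⟨x, y⟩
      simp only [proj1, HG, lineX, mem_ofPred_eq, Prod.mk.injEq]
      constructor
      · rintro ⟨rfl, _, i, j, hi, _, rfl, _⟩
        exact ⟨i, by omega, rfl, rfl⟩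
      · rintro ⟨i, hi, rfl, rfl⟩
        exact ⟨rfl, i, i, i, by omega, le_refl i, rfl, rfl⟩
    · ext ⟨x, y⟩
      simp only [proj2, HG, lineY, mem_ofPred_eq, Prod.mk.injEq]
      constructor
      · rintro ⟨rfl, _, i, j, hi, hij, _, rfl⟩
        exact ⟨j, by omega, rfl, rfl⟩
      · rintro ⟨j, hj, rfl, rfl⟩
        exact ⟨rfl, j, j, j, by omega, le_refl j, rfl, rfl⟩
  | succ n ih =>
    have hA : proj1 (dprod (lineX n) (lineY n) ∩ HGᶜ) = lineX (n + 1) := by
      ext ⟨x, y⟩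
      simp only [proj1, dprod, HG, lineX, lineY, mem_ofPred_eq, Prod.mk.injEq, mem_inter_iff,
        mem_compl_iff, and_true, true_and]
      constructor
      · rintro ⟨rfl, y, ⟨⟨i, hi, rfl⟩, j, hj, rfl⟩, h⟩
        refine ⟨i, ?_, rfl, rfl⟩
        by_contra h2
        exact h ⟨i, j, by omega, by omega, rfl, rfl⟩
      · rintro ⟨i, hi, rfl, rfl⟩
        refine ⟨rfl, ((n + 1 : ℕ) : ℝ), ⟨⟨i, by omega, rfl⟩, n + 1, le_refl _, rfl⟩, ?_⟩
        rintro ⟨i', j', h1, h2, h3, h4⟩
        have h3' := Nat.cast_injective h3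
        have h4' := Nat.cast_injective h4
        omega
    simp only [half, ih, core_GS, hA]
    refine Prod.ext rfl ?_
    ext ⟨x, y⟩
    simp only [proj2, dprod, HG, lineX, lineY, mem_ofPred_eq, Prod.mk.injEq, mem_inter_iff,
      and_true, true_and]
    constructor
    · rintro ⟨rfl, x, ⟨i, j, hi, hij, rfl, rfl⟩, ⟨i', hi', h1⟩, j', hj', h2⟩
      have h1' := Nat.cast_injective h1
      exact ⟨j, by omega, rfl, rfl⟩
    · rintro ⟨j, hj, rfl, rfl⟩
      exact ⟨rfl, j, ⟨j, j, by omega, le_refl j, rfl, rfl⟩, ⟨j, by omega, rfl⟩, j, by omega, rfl⟩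

theorem test_GS (S : Set ℕ) (n : ℕ) : test (GS S) n = ∅ ↔ n ∉ S := by
  simp only [test, half_GS]
  constructor
  · intro h hn
    have h1 : (((n : ℝ) + 1, (0 : ℝ)) : ℝ × ℝ) ∈ lineX n ∩ (lineX (n + 1))ᶜ ∩ GS S := by
      refine ⟨⟨⟨n + 1, le_refl _, by push_cast; rfl⟩, ?_⟩, Or.inr ⟨n, hn, rfl⟩⟩
      rintro ⟨i, hi, h2⟩
      have h3 : ((n + 1 : ℕ) : ℝ) = (i : ℝ) := by
        push_cast
        exact (Prod.mk.inj h2).1
      have h4 := Nat.cast_injective h3
      omega
    rw [h] at h1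
    exact h1
  · intro hn
    rw [eq_empty_iff_forall_notMem]
    rintro ⟨x, y⟩ ⟨⟨⟨i, hi, h1⟩, h2⟩, h3⟩
    obtain ⟨rfl, rfl⟩ := Prod.mk.inj h1
    have hin : i = n + 1 := by
      by_contra h4
      exact h2 ⟨i, by omega, rfl⟩
    subst hin
    rcases h3 with ⟨i', j', hi', hij', h5⟩ | ⟨m, hm, h5⟩
    · have h6 : (0 : ℝ) = (j' : ℝ) := (Prod.mk.inj h5).2
      have h7 : ((0 : ℕ) : ℝ) = (j' : ℝ) := by rw [Nat.cast_zero]; exact h6
      have := Nat.cast_injective h7
      omega
    · have h6 : ((n + 1 : ℕ) : ℝ) = ((m + 1 : ℕ) : ℝ) := by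
        push_cast
        have := (Prod.mk.inj h5).1
        push_cast at this
        exact this
      have h7 := Nat.cast_injective h6
      have h8 : n = m := by omega
      exact hn (h8 ▸ hm)

/-- A projective algebra `U` such that all projective algebras generated by one plane set embed in
`U` has at least continuum many members. In particular there is no countable projective algebra in
which all countable projective algebras embed. -/
theorem result :
    (∀ U : Set (Set (ℝ × ℝ)), IsProjectiveAlgebra U →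
      (∀ G : Set (ℝ × ℝ), Embeds (generated G) U) → 𝔠 ≤ #U) ∧
    ¬ ∃ U : Set (Set (ℝ × ℝ)), IsProjectiveAlgebra U ∧ U.Countable ∧
      ∀ F : Set (Set (ℝ × ℝ)), IsProjectiveAlgebra F → F.Countable → Embeds F U := by
  have main : ∀ U : Set (Set (ℝ × ℝ)), (∀ G : Set (ℝ × ℝ), Embeds (generated G) U) → 𝔠 ≤ #U := by
    intro U hU
    have h1 : ∀ S : Set ℕ, ∃ u : U, ∃ V : Set (Set (ℝ × ℝ)), ∃ e : generated (GS S) ≃ V,
        Preserves e ∧ Sends e (GS S) u := by
      intro S
      obtain ⟨V, hVU, -, e, he⟩ := hU (GS S)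
      exact ⟨⟨e ⟨GS S, mem_generated _⟩, hVU (e _).2⟩, V, e, he, mem_generated _, rfl⟩
    choose u hu using h1
    have hinj : Function.Injective u := by
      intro S T hST
      ext n
      obtain ⟨V, e, he, h2⟩ := hu S
      obtain ⟨V', e', he', h2'⟩ := hu T
      rw [← hST] at h2'
      have h3 := sends_empty_iff (isProjectiveAlgebra_generated _) e he
        (sends_test (isProjectiveAlgebra_generated _) e he h2 n)
      have h3' := sends_empty_iff (isProjectiveAlgebra_generated _) e' he'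
        (sends_test (isProjectiveAlgebra_generated _) e' he' h2' n)
      rw [← h3', test_GS, test_GS] at h3
      exact not_iff_not.1 h3
    have h4 := Cardinal.mk_le_of_injective hinj
    rwa [Cardinal.mk_set, Cardinal.mk_nat, Cardinal.two_power_aleph0] at h4
  refine ⟨fun U _ hU => main U hU, ?_⟩
  rintro ⟨U, -, hc, hU⟩
  have h1 := main U fun G => hU _ (isProjectiveAlgebra_generated G) (generated_countable G)
  exact absurd (h1.trans (Cardinal.le_aleph0_iff_set_countable.2 hc))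
    (not_le.2 Cardinal.aleph0_lt_continuum)

end Pool.Agent.Results.MP_3db952_lc.NoCountableUniversal
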